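import Pool.Agent.H90.SK.Win

/-!
# Prime quadruplets between consecutive fifth powers, and rotations of the circle

It is proved that for all real `α` outside a set of Hausdorff dimension at most `1/4`, for ALL `n → ∞`, the
prime quadruplets between `n ^ 5` and `(n + 1) ^ 5` are asymptotically independent of the points `α p` of
`ℝ/ℤ`.  So outside this set the order of magnitude conjecture for the number of prime quadruplets between
consecutive fifth powers (the quantitative form of the question) and the asymptotic formula for this number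
are equivalent to the same statements for the quadruplets with `α p` in any fixed subset of `ℝ/ℤ` of
positive measure with boundary of measure zero, and for the `p` in the Beatty sequence `⌊α j + γ⌋`.  The
same holds for arbitrary sets of constellations of primes in arbitrary windows of lengths `N_n`, with the
exponent of convergence of the sequence `N_n` in place of `1/4`.

Method: the large sieve for sifted sets at arbitrary well-spaced points bounds, for each window, the number
of the cells of length `1 / N_n` which contain a number `α` with a large exponential sum.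

No unproved hypothesis is made.
-/

set_option autoImplicit false

namespace Pool.Agent.Results.MP_c03ca8_nt.RotationsBetweenPowers

open Filter Topology MeasureTheory

section Definitions

/-- The set `H` misses a residue class modulo every prime. -/
def Admissible (H : Finset ℕ) : Prop := ∀ p : ℕ, p.Prime → (H.image (· % p)).card < p

/-- The integers `m` for which all `m + h`, `h ∈ H`, are primes. -/
def constellations (H : Finset ℕ) : Set ℕ := {m : ℕ | ∀ h ∈ H, (m + h).Prime}

/-- The number of the `m ∈ S` with `t < m ≤ t + N`. -/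
noncomputable def count (S : Set ℕ) (t N : ℕ) : ℝ := (Set.ncard {m : ℕ | m ∈ S ∧ t < m ∧ m ≤ t + N} : ℝ)

/-- The sum of `G(α m)` over the `m ∈ S` with `t < m ≤ t + N`. -/
noncomputable def total (G : C(UnitAddCircle, ℂ)) (α : ℝ) (S : Set ℕ) (t N : ℕ) : ℂ :=
  ∑ᶠ m ∈ {m : ℕ | m ∈ S ∧ t < m ∧ m ≤ t + N}, G ((m * α : ℝ) : UnitAddCircle)

/-- `N / (log N) ^ k`. -/
noncomputable def size (k N : ℕ) : ℝ := (N : ℝ) / Real.log N ^ k

/-- The integers `m` with `α m ∈ B` modulo one. -/
def bohr (α : ℝ) (B : Set UnitAddCircle) : Set ℕ := {m : ℕ | ((m * α : ℝ) : UnitAddCircle) ∈ B}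

/-- The integers `m` of the form `⌊α j + γ⌋`. -/
def beatty (α γ : ℝ) : Set ℕ := {m : ℕ | ∃ j : ℤ, (m : ℤ) = ⌊α * j + γ⌋}

/-- `N_n → ∞` and the sum of the `N_n ^ (- D)` converges for all `D > τ`. -/
def Exponent (N : ℕ → ℕ) (τ : ℝ) : Prop :=
  Tendsto N atTop atTop ∧ ∀ D : ℝ, τ < D → Summable fun n => (1 / (N n : ℝ)) ^ D

/-- The elements of the sets `S_n` in the windows `(t_n, t_n + N_n]` are, as `n → ∞` through ALL integers,
asymptotically independent of the points `α m`, up to `o(N_n / (log N_n) ^ k)`. -/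
def Independent (k : ℕ) (S : ℕ → Set ℕ) (t N : ℕ → ℕ) (α : ℝ) : Prop :=
  (∀ G : C(UnitAddCircle, ℂ), Tendsto (fun n =>
    ‖total G α (S n) (t n) (N n) - (∫ y, G y) * count (S n) (t n) (N n)‖ / size k (N n)) atTop (𝓝 0)) ∧
  (∀ B : Set UnitAddCircle, volume (frontier B) = 0 → Tendsto (fun n =>
    (count (S n ∩ bohr α B) (t n) (N n) - (volume B).toReal * count (S n) (t n) (N n)) / size k (N n))
      atTop (𝓝 0))

/-- The first elements `p ∈ W` of the prime quadruplets `p, p + 2, p + 6, p + 8` between `n ^ 5` and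
`(n + 1) ^ 5`: their number. -/
noncomputable def quadruplets (n : ℕ) (W : Set ℕ) : ℝ :=
  (Set.ncard {p : ℕ | (p.Prime ∧ (p + 2).Prime ∧ (p + 6).Prime ∧ (p + 8).Prime) ∧
    n ^ 5 < p ∧ p + 8 < (n + 1) ^ 5 ∧ p ∈ W} : ℝ)

/-- The expected order of magnitude `n ^ 4 / (log n) ^ 4`. -/
noncomputable def order (n : ℕ) : ℝ := (n : ℝ) ^ 4 / Real.log n ^ 4

/-- The condition `p ∈ W` is neutral, with density `κ`, for the prime quadruplets between `n ^ 5` and
`(n + 1) ^ 5`, for all `n → ∞`: the number of those with `p ∈ W` is `κ` times the number of all, up to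
`o(n ^ 4 / (log n) ^ 4)`; the number of all is asymptotic to `c n ^ 4 / (log n) ^ 4` if and only if the
number of those with `p ∈ W` is asymptotic to `κ c n ^ 4 / (log n) ^ 4`; for all large `n` there are at
least `c n ^ 4 / (log n) ^ 4` quadruplets, for some `c > 0`, if and only if for all large `n` there are at
least `c n ^ 4 / (log n) ^ 4` with `p ∈ W`, for some `c > 0`. -/
def Neutral (W : Set ℕ) (κ : ℝ) : Prop :=
  Tendsto (fun n => (quadruplets n W - κ * quadruplets n Set.univ) / order n) atTop (𝓝 0) ∧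
  (∀ c : ℝ, Tendsto (fun n => quadruplets n Set.univ / order n) atTop (𝓝 c) ↔
    Tendsto (fun n => quadruplets n W / order n) atTop (𝓝 (κ * c))) ∧
  ((∃ c : ℝ, 0 < c ∧ ∀ᶠ n : ℕ in atTop, c * order n ≤ quadruplets n Set.univ) ↔
    ∃ c : ℝ, 0 < c ∧ ∀ᶠ n : ℕ in atTop, c * order n ≤ quadruplets n W)

end Definitions

/-! ### proofs -/

section Proofs

open Finset Pool.Agent.H90.SK Pool.Agent.H90.ST Pool.Agent.Helper112
open scoped ENNReal

theorem S_ne {H : Finset ℕ} (h : Admissible H) :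
    Pool.Agent.Results.MP_485179_nt.AlmostPrimeProgressions.𝔖 H ≠ 0 := by
  have h1 := Pool.Agent.H386R2.HL.singularSeries_pos (Pool.Agent.H387R2.Uni.en_inj H) (by
    intro p hp
    rw [Pool.Agent.H387R2.Uni.nu_en]
    exact h p hp)
  rw [Pool.Agent.H387R2.Uni.CT_en] at h1
  exact ne_of_gt h1

theorem set_eq (S : Set ℕ) (t N : ℕ) :
    {m : ℕ | m ∈ S ∧ t < m ∧ m ≤ t + N} = ((Mw S t N : Finset ℕ) : Set ℕ) := by
  classical
  ext m
  unfold Mw
  simp only [coe_filter, mem_Ioc, Set.mem_ofPred_eq]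
  tauto

theorem count_eq (S : Set ℕ) (t N : ℕ) : count S t N = ((Mw S t N).card : ℝ) := by
  unfold count
  rw [set_eq, Set.ncard_coe_finset]

theorem total_eq (S : Set ℕ) (t N : ℕ) (G : C(UnitAddCircle, ℂ)) (α : ℝ) :
    total G α S t N = ∑ m ∈ Mw S t N, G ((m * α : ℝ) : UnitAddCircle) := by
  unfold total
  rw [set_eq, finsum_mem_coe_finset]

open Classical in
theorem count_inter (S : Set ℕ) (t N : ℕ) (α : ℝ) (B : Set UnitAddCircle) :
    count (S ∩ bohr α B) t N =
      (((Mw S t N).filter (fun m : ℕ => ((m * α : ℝ) : UnitAddCircle) ∈ B)).card : ℝ) := by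
  unfold count
  rw [← Set.ncard_coe_finset]
  congr 2
  ext m
  rw [coe_filter]
  have h1 := Set.ext_iff.1 (set_eq S t N) m
  simp only [Set.mem_ofPred_eq, mem_coe] at h1
  simp only [Set.mem_ofPred_eq, ← h1]
  constructor
  · rintro ⟨⟨h2, h3⟩, h4⟩; exact ⟨⟨h2, h4⟩, h3⟩
  · rintro ⟨⟨h2, h3⟩, h4⟩; exact ⟨⟨h2, h4⟩, h3⟩

theorem main {H : Finset ℕ} (hH : Admissible H) (hne : H.Nonempty) (t N : ℕ → ℕ) (τ : ℝ) (hτ : 0 ≤ τ)
    (hN : Exponent N τ) (S : ℕ → Set ℕ) (hS : ∀ n, S n ⊆ constellations H) :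
    dimH {α : ℝ | ¬ Independent H.card S t N α} ≤ ENNReal.ofReal τ := by
  classical
  obtain ⟨W, N₀, hW0, hN₀, hW, hmain⟩ := win H (S_ne hH) (card_pos.2 hne)
  obtain ⟨T, hT, hT2⟩ := hmain t N S (fun n m hm => hS n hm) hN.1 τ hτ hN.2
  refine (dimH_mono ?_).trans hT
  intro α hα
  by_contra hcon
  apply hα
  have h := hT2 α hcon
  have hc : ∀ᶠ n in atTop, 0 < cw H.card (N n) ∧ ((Mw (S n) (t n) (N n)).card : ℝ) ≤ W * cw H.card (N n) := by
    filter_upwards [hN.1.eventually (eventually_ge_atTop N₀)] with n hn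
    refine ⟨?_, hW (S n) (fun m hm => hS n hm) (t n) (N n) hn⟩
    have h1 : (1 : ℝ) < N n := by exact_mod_cast (by omega : 1 < N n)
    have := Real.log_pos h1
    unfold cw
    positivity
  have hG := circG hW0.le hc h
  constructor
  · intro G
    have h1 := (hG G).norm
    rw [norm_zero] at h1
    refine h1.congr' ?_
    filter_upwards [hc] with n hn
    rw [norm_div, Complex.norm_real, Real.norm_of_nonneg hn.1.le]
    have e : size H.card (N n) = cw H.card (N n) := rfl
    rw [e]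
    congr 2
    rw [total_eq, count_eq]
    unfold LG
    rw [sum_sub_distrib, sum_const, nsmul_eq_mul]
    push_cast
    ring
  · intro B hB
    have h1 := jordanG hW0.le hc hG hB
    refine h1.congr fun n => ?_
    rw [count_inter, count_eq]
    rfl

theorem exponent_powers (r : ℕ) (hr : 2 ≤ r) :
    Exponent (fun n => (n + 1) ^ r - n ^ r) (1 / ((r : ℝ) - 1)) := by
  have h1 : ∀ n : ℕ, n ^ (r - 1) ≤ (n + 1) ^ r - n ^ r := by
    intro n
    obtain ⟨s, rfl⟩ : ∃ s, r = s + 1 := ⟨r - 1, by omega⟩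
    have h2 : n ^ s ≤ (n + 1) ^ s := Nat.pow_le_pow_left (by omega) s
    have h3 : (n + 1) ^ (s + 1) = (n + 1) ^ s * (n + 1) := pow_succ _ _
    have h4 : n ^ (s + 1) = n ^ s * n := pow_succ _ _
    have h5 : s + 1 - 1 = s := by omega
    rw [h5, h3, h4]
    have h6 : n ^ s * n + n ^ s ≤ (n + 1) ^ s * (n + 1) := by nlinarith
    omega
  have h2 : ∀ n : ℕ, n ≤ n ^ (r - 1) := fun n => Nat.le_self_pow (by omega) n
  have hr0 : (0 : ℝ) < (r : ℝ) - 1 := by
    have : (2 : ℝ) ≤ r := by exact_mod_cast hr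
    linarith
  refine ⟨tendsto_atTop_mono (fun n => (h2 n).trans (h1 n)) tendsto_id, fun D hD => ?_⟩
  have hD0 : 0 < D := lt_trans (by positivity) hD
  have h3 : Summable fun n : ℕ => 1 / (n : ℝ) ^ (((r : ℝ) - 1) * D) := by
    apply Real.summable_one_div_nat_rpow.2
    rw [div_lt_iff₀ hr0] at hD
    linarith
  refine Summable.of_norm_bounded_eventually_nat h3 ?_
  filter_upwards [eventually_ge_atTop 1] with n hn
  rw [Real.norm_of_nonneg (by positivity)]
  have hn0 : (0 : ℝ) < n := by exact_mod_cast hn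
  have h4 : ((n : ℝ)) ^ ((r : ℝ) - 1) ≤ (((n + 1) ^ r - n ^ r : ℕ) : ℝ) := by
    have h5 : ((n ^ (r - 1) : ℕ) : ℝ) ≤ (((n + 1) ^ r - n ^ r : ℕ) : ℝ) := by exact_mod_cast h1 n
    have h6 : ((n ^ (r - 1) : ℕ) : ℝ) = ((n : ℝ)) ^ ((r : ℝ) - 1) := by
      push_cast
      rw [← Real.rpow_natCast, Nat.cast_sub (by omega)]
      simp
    rwa [h6] at h5
  rw [one_div, Real.inv_rpow (Nat.cast_nonneg _), one_div, Real.rpow_mul hn0.le]
  apply inv_anti₀ (by positivity)
  exact Real.rpow_le_rpow (by positivity) h4 hD0.le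

/-- the set of the quadruplets -/
def SQ (n : ℕ) : Set ℕ := {p : ℕ | (p.Prime ∧ (p + 2).Prime ∧ (p + 6).Prime ∧ (p + 8).Prime) ∧
    n ^ 5 < p ∧ p + 8 < (n + 1) ^ 5}

theorem quad_eq (n : ℕ) (W : Set ℕ) :
    quadruplets n W = count (SQ n ∩ W) (n ^ 5) ((n + 1) ^ 5 - n ^ 5) := by
  unfold quadruplets count SQ
  congr 2
  ext p
  simp only [Set.mem_inter_iff, Set.mem_ofPred_eq]
  constructor
  · rintro ⟨h1, h2, h3, h4⟩
    exact ⟨⟨⟨h1, h2, h3⟩, h4⟩, h2, by omega⟩
  · rintro ⟨⟨⟨h1, h2, h3⟩, h4⟩, _, _⟩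
    exact ⟨h1, h2, h3, h4⟩

theorem adm_quad : Admissible {0, 2, 6, 8} := by
  intro p hp
  by_cases h : 5 ≤ p
  · refine lt_of_le_of_lt card_image_le ?_
    have : ({0, 2, 6, 8} : Finset ℕ).card = 4 := by decide
    omega
  · have h2 := hp.two_le
    have h3 : p = 2 ∨ p = 3 ∨ p = 4 := by omega
    rcases h3 with rfl | rfl | rfl
    · decide
    · decide
    · exact absurd hp (by norm_num)

theorem SQ_sub (n : ℕ) : SQ n ⊆ constellations {0, 2, 6, 8} := by
  rintro p ⟨⟨h1, h2, h3, h4⟩, _⟩ h hh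
  simp only [mem_insert, mem_singleton] at hh
  rcases hh with rfl | rfl | rfl | rfl
  · simpa using h1
  · exact h2
  · exact h3
  · exact h4

theorem order_pos {n : ℕ} (hn : 2 ≤ n) : 0 < order n := by
  unfold order
  have h1 : (1 : ℝ) < n := by exact_mod_cast (by omega : 1 < n)
  have := Real.log_pos h1
  positivity

theorem size_order {n : ℕ} (hn : 2 ≤ n) : size 4 ((n + 1) ^ 5 - n ^ 5) ≤ 80 * order n := by
  have h1 : (1 : ℝ) < n := by exact_mod_cast (by omega : 1 < n)
  have hl := Real.log_pos h1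
  have h2 : (((n + 1) ^ 5 - n ^ 5 : ℕ) : ℝ) ≤ 80 * (n : ℝ) ^ 4 := by
    have h3 : (n + 1) ^ 5 ≤ 80 * n ^ 4 + n ^ 5 := by
      obtain ⟨m, rfl⟩ : ∃ m, n = m + 1 := ⟨n - 1, by omega⟩
      nlinarith [sq_nonneg (m : ℤ), Nat.zero_le m, Nat.zero_le (m ^ 2), Nat.zero_le (m ^ 3), Nat.zero_le (m ^ 4)]
    have h4 : (n + 1) ^ 5 - n ^ 5 ≤ 80 * n ^ 4 := by omega
    exact_mod_cast h4
  have h3 : (n : ℝ) ≤ (((n + 1) ^ 5 - n ^ 5 : ℕ) : ℝ) := by
    have h4 : n + n ^ 5 ≤ (n + 1) ^ 5 := by
      have : 1 ≤ n := by omega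
      nlinarith [Nat.zero_le n, Nat.zero_le (n ^ 2), Nat.zero_le (n ^ 3), Nat.zero_le (n ^ 4)]
    have h5 : n ≤ (n + 1) ^ 5 - n ^ 5 := by omega
    exact_mod_cast h5
  unfold size order
  rw [mul_div_assoc']
  apply div_le_div₀ (by positivity) h2 (by positivity)
  exact pow_le_pow_left₀ hl.le (Real.log_le_log (by linarith) h3) 4

/-- from the comparison to neutrality -/
theorem neutral_of {W : Set ℕ} {κ : ℝ} (hκ : 0 < κ)
    (h : Tendsto (fun n => (quadruplets n W - κ * quadruplets n Set.univ) / order n) atTop (𝓝 0)) :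
    Neutral W κ := by
  refine ⟨h, fun c => ⟨fun h1 => ?_, fun h1 => ?_⟩, ⟨?_, ?_⟩⟩
  · have h2 := h.add (h1.const_mul κ)
    rw [zero_add] at h2
    refine h2.congr fun n => ?_
    ring
  · have h2 := (h1.sub h).const_mul κ⁻¹
    rw [sub_zero, inv_mul_cancel_left₀ hκ.ne'] at h2
    refine h2.congr fun n => ?_
    field_simp
    ring
  · rintro ⟨c, hc, hc2⟩
    refine ⟨κ * c / 2, by positivity, ?_⟩
    filter_upwards [hc2, Metric.tendsto_nhds.1 h (κ * c / 2) (by positivity), eventually_ge_atTop 2] with n h1 h2 h3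
    have ho := order_pos h3
    rw [dist_zero_right, Real.norm_eq_abs, abs_div, abs_of_pos ho, div_lt_iff₀ ho] at h2
    have h4 := (abs_lt.1 h2).1
    have h5 := mul_le_mul_of_nonneg_left h1 hκ.le
    linarith
  · rintro ⟨c, hc, hc2⟩
    refine ⟨c, hc, ?_⟩
    filter_upwards [hc2] with n h1
    refine h1.trans ?_
    unfold quadruplets
    have hfin : {p : ℕ | (p.Prime ∧ (p + 2).Prime ∧ (p + 6).Prime ∧ (p + 8).Prime) ∧
        n ^ 5 < p ∧ p + 8 < (n + 1) ^ 5 ∧ p ∈ Set.univ}.Finite := by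
      apply (Set.finite_Iio ((n + 1) ^ 5)).subset
      rintro p ⟨_, _, h3, _⟩
      exact Set.mem_Iio.2 (by omega)
    have := Set.ncard_le_ncard (s := {p : ℕ | (p.Prime ∧ (p + 2).Prime ∧ (p + 6).Prime ∧ (p + 8).Prime) ∧
        n ^ 5 < p ∧ p + 8 < (n + 1) ^ 5 ∧ p ∈ W}) (by
      rintro p ⟨h1, h2, h3, _⟩
      exact ⟨h1, h2, h3, Set.mem_univ _⟩) hfin
    exact_mod_cast this

end Proofs

/-- **Prime quadruplets between consecutive fifth powers and rotations.**

(1) Let `H` be an admissible set with `k ≥ 1` elements and let `S_n` be arbitrary sets of integers `m` for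
which all `m + h`, `h ∈ H`, are primes.  For arbitrary windows `(t_n, t_n + N_n]` with `N_n` of exponent of
convergence at most `τ`, the real `α` for which the elements of the `S_n` in the windows are not
asymptotically independent of the points `α m`, as `n → ∞` through all integers, form a set of Hausdorff
dimension at most `τ`.

(2) The exponent of the lengths of the intervals between consecutive `r`-th powers is at most
`1 / (r - 1)`.

(3) There is a set `T` of dimension at most `1/4` such that for all `α` outside `T` the condition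
`α p ∈ B` is neutral for the prime quadruplets between `n ^ 5` and `(n + 1) ^ 5`, for every subset `B` of
`ℝ/ℤ` of positive measure with boundary of measure zero, and, if `α > 1`, the condition that `p` is one of
the `⌊α j + γ⌋`. -/
theorem result :
    (∀ H : Finset ℕ, Admissible H → H.Nonempty → ∀ (t N : ℕ → ℕ) (τ : ℝ), 0 ≤ τ → Exponent N τ →
      ∀ S : ℕ → Set ℕ, (∀ n, S n ⊆ constellations H) →
        dimH {α : ℝ | ¬ Independent H.card S t N α} ≤ ENNReal.ofReal τ) ∧
    (∀ r : ℕ, 2 ≤ r → Exponent (fun n => (n + 1) ^ r - n ^ r) (1 / ((r : ℝ) - 1))) ∧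
    ∃ T : Set ℝ, dimH T ≤ ENNReal.ofReal (1 / 4) ∧ ∀ α : ℝ, α ∉ T →
      (∀ B : Set UnitAddCircle, volume (frontier B) = 0 → 0 < volume B →
        Neutral (bohr α B) (volume B).toReal) ∧
      (1 < α → ∀ γ : ℝ, Neutral (beatty α γ) (1 / α)) := by
  refine ⟨fun H hH hne t N τ hτ hN S hS => main hH hne t N τ hτ hN S hS, exponent_powers, ?_⟩
  have hexp := exponent_powers 5 (by norm_num)
  have hexp' : Exponent (fun n => (n + 1) ^ 5 - n ^ 5) (1 / 4) := by
    have : (1 : ℝ) / (((5 : ℕ) : ℝ) - 1) = 1 / 4 := by norm_num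
    rwa [this] at hexp
  set E : Set ℝ := {α : ℝ | ¬ Independent 4 SQ (fun n => n ^ 5) (fun n => (n + 1) ^ 5 - n ^ 5) α} with hE
  have hdim : dimH E ≤ ENNReal.ofReal (1 / 4) := by
    have h1 := main adm_quad ⟨0, by simp⟩ (fun n => n ^ 5) (fun n => (n + 1) ^ 5 - n ^ 5) (1 / 4)
      (by norm_num) hexp' SQ SQ_sub
    have h2 : ({0, 2, 6, 8} : Finset ℕ).card = 4 := by decide
    rw [h2] at h1
    exact h1
  have key : ∀ α : ℝ, α ∉ E → ∀ B : Set UnitAddCircle, volume (frontier B) = 0 → 0 < volume B →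
      Neutral (bohr α B) (volume B).toReal := by
    intro α hα B hB hB0
    have hI : Independent 4 SQ (fun n => n ^ 5) (fun n => (n + 1) ^ 5 - n ^ 5) α := by
      by_contra hcon
      exact hα hcon
    have h1 := hI.2 B hB
    apply neutral_of (ENNReal.toReal_pos hB0.ne' (measure_ne_top _ _))
    rw [Metric.tendsto_nhds] at h1 ⊢
    intro ε hε
    filter_upwards [h1 (ε / 80) (by positivity), eventually_ge_atTop 2] with n h2 h3
    have ho := order_pos h3
    have hso := size_order h3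
    have hs : 0 < size 4 ((n + 1) ^ 5 - n ^ 5) := by
      have h4 : n + n ^ 5 ≤ (n + 1) ^ 5 := by
        have : 1 ≤ n := by omega
        nlinarith [Nat.zero_le n, Nat.zero_le (n ^ 2), Nat.zero_le (n ^ 3), Nat.zero_le (n ^ 4)]
      have h5 : 1 < (n + 1) ^ 5 - n ^ 5 := by omega
      have h6 : (1 : ℝ) < (((n + 1) ^ 5 - n ^ 5 : ℕ) : ℝ) := by exact_mod_cast h5
      have := Real.log_pos h6
      unfold size
      positivity
    rw [dist_zero_right, Real.norm_eq_abs, abs_div, abs_of_pos hs, div_lt_iff₀ hs] at h2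
    rw [dist_zero_right, Real.norm_eq_abs, abs_div, abs_of_pos ho, div_lt_iff₀ ho, quad_eq, quad_eq,
      Set.inter_univ]
    calc _ < ε / 80 * size 4 ((n + 1) ^ 5 - n ^ 5) := h2
      _ ≤ ε / 80 * (80 * order n) := mul_le_mul_of_nonneg_left hso (by positivity)
      _ = ε * order n := by ring
  refine ⟨E ∪ (fun x : ℝ => x⁻¹) '' (E ∩ Set.Ioi 0), ?_, ?_⟩
  · rw [dimH_union]
    apply max_le hdim
    have h1 : ContDiffOn ℝ 1 (fun x : ℝ => x⁻¹) (Set.Ioi 0) := by
      intro x hx
      exact (contDiffAt_inv ℝ (ne_of_gt hx)).contDiffWithinAt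
    refine (h1.dimH_image_le (convex_Ioi 0) Set.inter_subset_right).trans ?_
    exact (dimH_mono Set.inter_subset_left).trans hdim
  · intro α hα
    have hα0 : α ∉ E := fun h => hα (Or.inl h)
    refine ⟨fun B hB hB0 => key α hα0 B hB hB0, fun hα1 γ => ?_⟩
    have hpos : 0 < α := by linarith
    have hα2 : α⁻¹ ∉ E := by
      intro h
      apply hα
      right
      exact ⟨α⁻¹, ⟨h, Set.mem_Ioi.2 (inv_pos.2 hpos)⟩, inv_inv α⟩
    have h1 := key α⁻¹ hα2 _ (Pool.Agent.H90.ST.frontier_beatty α γ) (Pool.Agent.H90.ST.volume_beatty hpos γ)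
    rw [Pool.Agent.H90.SK.volume_beattySet hα1] at h1
    have e : bohr α⁻¹ (Pool.Agent.H90.ST.beattySet α γ) = beatty α γ := by
      ext m
      exact (Pool.Agent.H90.ST.beatty_iff hpos γ m).symm
    rw [e] at h1
    exact h1

end Pool.Agent.Results.MP_c03ca8_nt.RotationsBetweenPowers
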