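import Pool.Agent.H90.HC.PZ
import Pool.Agent.Results.MP_c03ca8_nt.RotationsBetweenPowers

/-!
# Prime quadruplets between consecutive fifth powers in the residue classes to almost all moduli

The quantitative form of the question for large `n`, that there are at least `c n ^ 4 / (log n) ^ 4` prime quadruplets
between `n ^ 5` and `(n + 1) ^ 5`, is equivalent to two statements on residue classes, a very strong one and a very weak
one. The strong one: for almost all moduli `q` of every size, up to an arbitrary multiple of `n ^ 4 / (log n) ^ 4`, a positive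
proportion of ALL residue classes modulo `q` contain at least `c n ^ 4 / (q (log n) ^ 4)` quadruplets between `n ^ 5` and
`(n + 1) ^ 5`, and even such quadruplets with `α p` in a given subset of `ℝ/ℤ` of positive measure, or with `p` in a
Beatty sequence, for all `α` outside a set of Hausdorff dimension at most `1/4`. The weak one: for every large `n` there is
ONE modulus `q ≥ c n ^ 4 / (log n) ^ 4` such that the quadruplets between `n ^ 5` and `(n + 1) ^ 5` meet at least `c q` classes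
modulo `q`.

Method: the large sieve for sifted sets, which bounds the second moment over all residue classes to all moduli
`Q ≤ q < 2 Q`, for arbitrary sets of quadruplets in arbitrary intervals, by the right order of magnitude.

No unproved hypothesis is made.
-/

set_option autoImplicit false

namespace Pool.Agent.Results.MP_c03ca8_nt.AlmostAllModuli

open Filter Topology MeasureTheory

section Definitions

/-- The number of the prime quadruplets `p, p + 2, p + 6, p + 8` between `n ^ 5` and `(n + 1) ^ 5` with `p ∈ W` and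
`p ≡ a` modulo `q`. -/
noncomputable def quadruplets (W : Set ℕ) (n q a : ℕ) : ℕ :=
  Set.ncard {p : ℕ | (p.Prime ∧ (p + 2).Prime ∧ (p + 6).Prime ∧ (p + 8).Prime) ∧
    n ^ 5 < p ∧ p + 8 < (n + 1) ^ 5 ∧ p ∈ W ∧ p ≡ a [MOD q]}

/-- The expected order of magnitude `n ^ 4 / (log n) ^ 4` of the number of the quadruplets. -/
noncomputable def order (n : ℕ) : ℝ := (n : ℝ) ^ 4 / Real.log n ^ 4

/-- The number of the residue classes modulo `q` which contain at least one and at least `y / q` prime quadruplets with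
`p ∈ W` between `n ^ 5` and `(n + 1) ^ 5`. -/
noncomputable def classes (W : Set ℕ) (n q : ℕ) (y : ℝ) : ℕ :=
  Set.ncard {a : ℕ | a < q ∧ 0 < quadruplets W n q a ∧ y ≤ q * (quadruplets W n q a : ℝ)}

/-- The quantitative form of the question for large `n`: for some `c > 0` and all large `n` there are at least
`c n ^ 4 / (log n) ^ 4` prime quadruplets between `n ^ 5` and `(n + 1) ^ 5`. -/
def Quantitative : Prop := ∃ c : ℝ, 0 < c ∧ ∀ᶠ n : ℕ in atTop, c * order n ≤ quadruplets Set.univ n 1 0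

/-- The strong form, for the quadruplets with `p ∈ W`: for all `D, η > 0` there is `c > 0` such that for all large `n`, for
all `1 ≤ Q ≤ D order n` and all `Q ≤ q < 2 Q` up to `η Q` exceptions, there are at least `c q` classes modulo `q` with at
least `c (order n) / q` quadruplets with `p ∈ W` between `n ^ 5` and `(n + 1) ^ 5`. -/
def Strong (W : Set ℕ) : Prop :=
  ∀ D η : ℝ, 0 < D → 0 < η → ∃ c : ℝ, 0 < c ∧ ∀ᶠ n : ℕ in atTop, ∀ Q : ℕ, 1 ≤ Q → (Q : ℝ) ≤ D * order n →
    (Set.ncard {q : ℕ | Q ≤ q ∧ q < 2 * Q ∧ ¬ c * q ≤ classes W n q (c * order n)} : ℝ) ≤ η * Q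

/-- The weak form: for some `c > 0` and all large `n` there is a modulus `q ≥ c order n` such that at least `c q` classes
modulo `q` contain a quadruplet between `n ^ 5` and `(n + 1) ^ 5`. -/
def Weak : Prop :=
  ∃ c : ℝ, 0 < c ∧ ∀ᶠ n : ℕ in atTop, ∃ q : ℕ, c * order n ≤ q ∧ c * q ≤ classes Set.univ n q 0

/-- The integers `m` with `α m ∈ B` modulo one. -/
def bohr (α : ℝ) (B : Set UnitAddCircle) : Set ℕ := {m : ℕ | ((m * α : ℝ) : UnitAddCircle) ∈ B}

/-- The integers `m` of the form `⌊α j + γ⌋`. -/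
def beatty (α γ : ℝ) : Set ℕ := {m : ℕ | ∃ j : ℤ, (m : ℤ) = ⌊α * j + γ⌋}

end Definitions

/-! ### proofs -/

section Proofs

open Finset Pool.Agent.H90.SK
open Pool.Agent.Results.MP_c03ca8_nt.RotationsBetweenPowers (SQ SQ_sub adm_quad S_ne size_order order_pos Neutral)
open Pool.Agent.Results.MP_dddec0_nt.EveryIntervalLargeModuli (count count_split)

theorem quad_eq (W : Set ℕ) (n q a : ℕ) :
    (quadruplets W n q a : ℝ) = count (SQ n ∩ W) (n ^ 5) ((n + 1) ^ 5 - n ^ 5) q a := by
  unfold quadruplets count SQ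
  congr 2
  ext p
  simp only [Set.mem_inter_iff, Set.mem_ofPred_eq]
  constructor
  · rintro ⟨h1, h2, h3, h4, h5⟩
    exact ⟨⟨⟨h1, h2, h3⟩, h4⟩, h2, by omega, h5⟩
  · rintro ⟨⟨⟨h1, h2, h3⟩, h4⟩, _, _, h5⟩
    exact ⟨h1, h2, h3, h4, h5⟩

theorem quad_one (W : Set ℕ) (n a : ℕ) :
    (quadruplets W n 1 a : ℝ) = Pool.Agent.Results.MP_c03ca8_nt.RotationsBetweenPowers.quadruplets n W := by
  unfold quadruplets Pool.Agent.Results.MP_c03ca8_nt.RotationsBetweenPowers.quadruplets
  congr 2
  ext p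
  simp only [Set.mem_ofPred_eq]
  constructor
  · rintro ⟨h1, h2, h3, h4, _⟩
    exact ⟨h1, h2, h3, h4⟩
  · rintro ⟨h1, h2, h3, h4⟩
    exact ⟨h1, h2, h3, h4, Nat.modEq_one⟩

theorem quad_sum (W : Set ℕ) (n : ℕ) {q : ℕ} (hq : 1 ≤ q) :
    ∑ a ∈ range q, (quadruplets W n q a : ℝ) = quadruplets W n 1 0 := by
  rw [quad_eq W n 1 0, count_split (one_dvd q) hq]
  have h : (range q).filter (fun a => a ≡ 0 [MOD 1]) = range q := by
    apply filter_true_of_mem
    intro a _
    exact Nat.modEq_one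
  rw [h]
  apply sum_congr rfl
  intro a _
  exact quad_eq W n q a

/-- the second moment -/
theorem moment : ∃ C : ℝ, 0 < C ∧ ∀ᶠ n : ℕ in atTop, ∀ W : Set ℕ, ∀ Q : ℕ, 1 ≤ Q →
    ∑ q ∈ Ico Q (2 * Q), ∑ a ∈ range q, (quadruplets W n q a : ℝ) ^ 2 ≤ C * (order n ^ 2 + Q * order n) := by
  have h4 : ({0, 2, 6, 8} : Finset ℕ).card = 4 := by decide
  obtain ⟨C, N₀, hC, _, h⟩ := Pool.Agent.H90.HC.second {0, 2, 6, 8} (S_ne adm_quad) (by rw [h4]; norm_num)
  rw [h4] at h
  refine ⟨6400 * C, by positivity, ?_⟩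
  filter_upwards [eventually_ge_atTop N₀, eventually_ge_atTop 2] with n hn hn2 W Q hQ
  have hN : N₀ ≤ (n + 1) ^ 5 - n ^ 5 := by
    have h5 : n + n ^ 5 ≤ (n + 1) ^ 5 := by
      have : 1 ≤ n := by omega
      nlinarith [Nat.zero_le n, Nat.zero_le (n ^ 2), Nat.zero_le (n ^ 3), Nat.zero_le (n ^ 4)]
    omega
  have h1 := h (n ^ 5) ((n + 1) ^ 5 - n ^ 5) hN (SQ n ∩ W) (fun m hm => SQ_sub n hm.1) Q hQ
  have h2 : cw 4 ((n + 1) ^ 5 - n ^ 5) ≤ 80 * order n := size_order hn2
  have ho : 0 < order n := order_pos hn2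
  have hc0 : 0 ≤ cw 4 ((n + 1) ^ 5 - n ^ 5) := by
    unfold cw
    have : 0 ≤ Real.log (((n + 1) ^ 5 - n ^ 5 : ℕ) : ℝ) := Real.log_natCast_nonneg _
    positivity
  simp only [quad_eq]
  refine h1.trans ?_
  have h3 : cw 4 ((n + 1) ^ 5 - n ^ 5) ^ 2 ≤ (80 * order n) ^ 2 := pow_le_pow_left₀ hc0 h2 2
  have h5 : (Q : ℝ) * cw 4 ((n + 1) ^ 5 - n ^ 5) ≤ Q * (80 * order n) := mul_le_mul_of_nonneg_left h2 (Nat.cast_nonneg _)
  have h6 : 0 ≤ (Q : ℝ) * order n := by positivity
  calc C * (cw 4 ((n + 1) ^ 5 - n ^ 5) ^ 2 + Q * cw 4 ((n + 1) ^ 5 - n ^ 5)) ≤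
        C * (6400 * (order n ^ 2 + Q * order n)) := by
        apply mul_le_mul_of_nonneg_left _ hC.le
        nlinarith
    _ = _ := by ring

theorem strong_of {W : Set ℕ} (h : ∃ c : ℝ, 0 < c ∧ ∀ᶠ n : ℕ in atTop, c * order n ≤ quadruplets W n 1 0) :
    Strong W := by
  classical
  obtain ⟨c₁, hc₁, h1⟩ := h
  obtain ⟨C, hC, h2⟩ := moment
  intro D η hD hη
  obtain ⟨c, hc⟩ : ∃ c, c = min (c₁ / 2) (η * c₁ ^ 2 / (8 * (C * (1 + D)))) := ⟨_, rfl⟩
  have hc0 : 0 < c := by
    rw [hc]
    exact lt_min (by positivity) (by positivity)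
  have hca : c ≤ c₁ / 2 := by rw [hc]; exact min_le_left _ _
  have hcb : c ≤ η * c₁ ^ 2 / (8 * (C * (1 + D))) := by rw [hc]; exact min_le_right _ _
  refine ⟨c, hc0, ?_⟩
  filter_upwards [h1, h2, eventually_ge_atTop 2] with n h3 h4 hn2 Q hQ hQD
  have ho : 0 < order n := order_pos hn2
  set X : ℝ := (quadruplets W n 1 0 : ℝ) with hX
  have hX0 : 0 < X := lt_of_lt_of_le (by positivity) h3
  have hM : ∑ q ∈ Ico Q (2 * Q), ∑ a ∈ range q, (quadruplets W n q a : ℝ) ^ 2 ≤ C * (1 + D) * order n ^ 2 := by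
    refine (h4 W Q hQ).trans ?_
    have : (Q : ℝ) * order n ≤ D * order n * order n := mul_le_mul_of_nonneg_right hQD ho.le
    calc C * (order n ^ 2 + Q * order n) ≤ C * (order n ^ 2 + D * order n * order n) := by
          apply mul_le_mul_of_nonneg_left _ hC.le
          linarith
      _ = _ := by ring
  have hmany := Pool.Agent.H90.HC.many hQ hη hX0 (by positivity) (fun q a => (quadruplets W n q a : ℝ))
    (fun q hq => quad_sum W n (by rw [mem_Ico] at hq; omega)) hM
  refine le_trans ?_ hmany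
  rw [← Set.ncard_coe_finset]
  apply Nat.cast_le.2
  apply Set.ncard_le_ncard _ (Finset.finite_toSet _)
  rintro q ⟨hq1, hq2, hq3⟩
  rw [mem_coe, mem_filter, mem_Ico]
  refine ⟨⟨hq1, hq2⟩, fun hgood => hq3 ?_⟩
  have hq0 : (0 : ℝ) < q := by exact_mod_cast (by omega : 0 < q)
  have e1 : c * q ≤ η * X ^ 2 / (8 * (C * (1 + D) * order n ^ 2)) * q := by
    apply mul_le_mul_of_nonneg_right _ hq0.le
    refine hcb.trans ?_
    rw [div_le_div_iff₀ (by positivity) (by positivity)]
    have e2 : (c₁ * order n) ^ 2 ≤ X ^ 2 := pow_le_pow_left₀ (by positivity) h3 2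
    calc η * c₁ ^ 2 * (8 * (C * (1 + D) * order n ^ 2)) = (η * (8 * (C * (1 + D)))) * (c₁ * order n) ^ 2 := by ring
      _ ≤ (η * (8 * (C * (1 + D)))) * X ^ 2 := mul_le_mul_of_nonneg_left e2 (by positivity)
      _ = _ := by ring
  refine e1.trans (hgood.trans ?_)
  apply Nat.cast_le.2
  unfold classes
  rw [← Set.ncard_coe_finset]
  apply Set.ncard_le_ncard
  · intro a ha
    rw [mem_coe, mem_filter, mem_range] at ha
    have e3 : 0 < (q : ℝ) * (quadruplets W n q a : ℝ) := lt_of_lt_of_le (by positivity) ha.2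
    have e4 : (0 : ℝ) < (quadruplets W n q a : ℝ) := (mul_pos_iff_of_pos_left hq0).1 e3
    refine ⟨ha.1, by exact_mod_cast e4, le_trans ?_ ha.2⟩
    have := mul_le_mul_of_nonneg_right hca ho.le
    linarith
  · exact (Set.finite_Iio q).subset (fun a ha => ha.1)

theorem weak_of {W : Set ℕ} (h : Strong W) : Weak := by
  classical
  obtain ⟨c, hc, h1⟩ := h 1 (1 / 2) one_pos (by norm_num)
  have hord : ∀ᶠ n : ℕ in atTop, 1 ≤ order n := by
    have h2 : Tendsto (fun x : ℝ => Real.log x ^ 4 / x) atTop (𝓝 0) := by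
      have := Real.isLittleO_pow_log_id_atTop (n := 4)
      exact this.tendsto_div_nhds_zero
    have h3 := (h2.eventually_le_const one_pos).and (eventually_gt_atTop (1 : ℝ))
    filter_upwards [(tendsto_natCast_atTop_atTop (R := ℝ)).eventually h3] with n hn
    obtain ⟨h4, h5⟩ := hn
    have hn0 : (0 : ℝ) < n := by linarith
    have hl := Real.log_pos h5
    rw [div_le_one hn0] at h4
    unfold order
    rw [le_div_iff₀ (by positivity), one_mul]
    refine h4.trans ?_
    have : (1 : ℝ) ≤ (n : ℝ) ^ 3 := one_le_pow₀ h5.le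
    nlinarith
  refine ⟨min c (1 / 2), lt_min hc (by norm_num), ?_⟩
  filter_upwards [h1, hord] with n h2 h3
  set Q : ℕ := ⌊order n⌋₊ with hQ
  have hQ1 : 1 ≤ Q := Nat.le_floor (by exact_mod_cast h3)
  have hQle : (Q : ℝ) ≤ order n := Nat.floor_le (by linarith)
  have hQge : order n / 2 ≤ Q := by
    have h4 : order n < Q + 1 := Nat.lt_floor_add_one _
    have h5 : (1 : ℝ) ≤ Q := by exact_mod_cast hQ1
    linarith
  have h4 := h2 Q hQ1 (by linarith)
  have hQ0 : (0 : ℝ) < Q := by exact_mod_cast hQ1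
  obtain ⟨q, hq1, hq2⟩ : ∃ q ∈ Ico Q (2 * Q), c * (q : ℝ) ≤ classes W n q (c * order n) := by
    by_contra hcon
    push Not at hcon
    have h5 : {q : ℕ | Q ≤ q ∧ q < 2 * Q ∧ ¬ c * q ≤ classes W n q (c * order n)} = (Ico Q (2 * Q) : Finset ℕ) := by
      ext q
      rw [mem_coe, mem_Ico, Set.mem_ofPred_eq]
      constructor
      · rintro ⟨e1, e2, _⟩
        exact ⟨e1, e2⟩
      · rintro ⟨e1, e2⟩
        exact ⟨e1, e2, not_le.2 (hcon q (mem_Ico.2 ⟨e1, e2⟩))⟩
    rw [h5, Set.ncard_coe_finset, Nat.card_Ico] at h4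
    have h6 : 2 * Q - Q = Q := by omega
    rw [h6] at h4
    linarith
  rw [mem_Ico] at hq1
  have hq0 : (0 : ℝ) ≤ q := Nat.cast_nonneg _
  refine ⟨q, ?_, ?_⟩
  · have h5 : (Q : ℝ) ≤ q := by exact_mod_cast hq1.1
    have h6 : min c (1 / 2) * order n ≤ 1 / 2 * order n := mul_le_mul_of_nonneg_right (min_le_right _ _) (by linarith)
    linarith
  · refine (mul_le_mul_of_nonneg_right (min_le_left _ _) hq0).trans (hq2.trans ?_)
    apply Nat.cast_le.2
    unfold classes
    apply Set.ncard_le_ncard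
    · rintro a ⟨e1, e2, _⟩
      refine ⟨e1, lt_of_lt_of_le e2 ?_, by positivity⟩
      unfold quadruplets
      apply Set.ncard_le_ncard
      · rintro p ⟨f1, f2, f3, _, f5⟩
        exact ⟨f1, f2, f3, Set.mem_univ _, f5⟩
      · apply (Set.finite_Iio ((n + 1) ^ 5)).subset
        rintro p ⟨_, _, f3, _⟩
        exact Set.mem_Iio.2 (by omega)
    · exact (Set.finite_Iio q).subset (fun a ha => ha.1)

theorem quantitative_of (h : Weak) : Quantitative := by
  classical
  obtain ⟨c, hc, h1⟩ := h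
  refine ⟨c ^ 2, by positivity, ?_⟩
  filter_upwards [h1] with n hn
  obtain ⟨q, hq1, hq2⟩ := hn
  have h3 : classes Set.univ n q 0 ≤ quadruplets Set.univ n 1 0 := by
    unfold classes
    have hfin : {p : ℕ | (p.Prime ∧ (p + 2).Prime ∧ (p + 6).Prime ∧ (p + 8).Prime) ∧
        n ^ 5 < p ∧ p + 8 < (n + 1) ^ 5 ∧ p ∈ Set.univ ∧ p ≡ 0 [MOD 1]}.Finite := by
      apply (Set.finite_Iio ((n + 1) ^ 5)).subset
      rintro p ⟨_, _, f3, _⟩
      exact Set.mem_Iio.2 (by omega)
    have hsub : {a : ℕ | a < q ∧ 0 < quadruplets Set.univ n q a ∧ (0 : ℝ) ≤ q * (quadruplets Set.univ n q a : ℝ)} ⊆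
        (fun p => p % q) '' {p : ℕ | (p.Prime ∧ (p + 2).Prime ∧ (p + 6).Prime ∧ (p + 8).Prime) ∧
        n ^ 5 < p ∧ p + 8 < (n + 1) ^ 5 ∧ p ∈ Set.univ ∧ p ≡ 0 [MOD 1]} := by
      rintro a ⟨ha, hpos, _⟩
      unfold quadruplets at hpos
      obtain ⟨p, f1, f2, f3, _, f5⟩ := Set.nonempty_of_ncard_ne_zero hpos.ne'
      refine ⟨p, ⟨f1, f2, f3, Set.mem_univ _, Nat.modEq_one⟩, ?_⟩
      show p % q = a
      rw [f5]
      exact Nat.mod_eq_of_lt ha
    refine (Set.ncard_le_ncard hsub (hfin.image _)).trans ?_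
    exact Set.ncard_image_le hfin
  have h4 : (classes Set.univ n q 0 : ℝ) ≤ quadruplets Set.univ n 1 0 := by exact_mod_cast h3
  have h5 := mul_le_mul_of_nonneg_left hq1 hc.le
  calc c ^ 2 * order n = c * (c * order n) := by ring
    _ ≤ c * q := h5
    _ ≤ _ := hq2.trans h4

theorem tfae {W : Set ℕ} {κ : ℝ} (h : Neutral W κ) : List.TFAE [Quantitative, Strong W, Weak] := by
  tfae_have 1 → 2 := by
    intro h1
    apply strong_of
    have h2 : (∃ c : ℝ, 0 < c ∧ ∀ᶠ n : ℕ in atTop, c * order n ≤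
        Pool.Agent.Results.MP_c03ca8_nt.RotationsBetweenPowers.quadruplets n Set.univ) := by
      obtain ⟨c, hc, h3⟩ := h1
      refine ⟨c, hc, ?_⟩
      filter_upwards [h3] with n hn
      rwa [quad_one] at hn
    obtain ⟨c, hc, h3⟩ := h.2.2.1 h2
    refine ⟨c, hc, ?_⟩
    filter_upwards [h3] with n hn
    rw [quad_one]
    exact hn
  tfae_have 2 → 3 := weak_of
  tfae_have 3 → 1 := quantitative_of
  tfae_finish

end Proofs

/-- **Prime quadruplets between consecutive fifth powers in the residue classes to almost all moduli.** There is a set `T`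
of real numbers of Hausdorff dimension at most `1/4` such that for all `α` outside `T` and all subsets `B` of `ℝ/ℤ` of
positive measure with boundary of measure zero the following are equivalent (all three without reference to `α`, `B` if
`B = ℝ/ℤ`), and similarly for `α > 1` and the Beatty sequence of the `⌊α j + γ⌋`:

(i) for some `c > 0` and all large `n` there are at least `c n ^ 4 / (log n) ^ 4` prime quadruplets between `n ^ 5` and
`(n + 1) ^ 5`;

(ii) for all `D, η > 0` there is `c > 0` such that for all large `n`, all `1 ≤ Q ≤ D n ^ 4 / (log n) ^ 4` and all moduli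
`Q ≤ q < 2 Q` with at most `η Q` exceptions, at least `c q` residue classes modulo `q` contain at least one and at least
`c n ^ 4 / (q (log n) ^ 4)` prime quadruplets between `n ^ 5` and `(n + 1) ^ 5` with `α p ∈ B` modulo one;

(iii) for some `c > 0` and all large `n` there is one modulus `q ≥ c n ^ 4 / (log n) ^ 4` such that at least `c q` residue
classes modulo `q` contain a prime quadruplet between `n ^ 5` and `(n + 1) ^ 5`. -/
theorem result : ∃ T : Set ℝ, dimH T ≤ ENNReal.ofReal (1 / 4) ∧ ∀ α : ℝ, α ∉ T →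
    (∀ B : Set UnitAddCircle, volume (frontier B) = 0 → 0 < volume B →
      List.TFAE [Quantitative, Strong (bohr α B), Weak]) ∧
    (1 < α → ∀ γ : ℝ, List.TFAE [Quantitative, Strong (beatty α γ), Weak]) := by
  obtain ⟨T, hT, h⟩ := Pool.Agent.Results.MP_c03ca8_nt.RotationsBetweenPowers.result.2.2
  refine ⟨T, hT, fun α hα => ⟨fun B hB hB0 => ?_, fun hα1 γ => ?_⟩⟩
  · exact tfae ((h α hα).1 B hB hB0)
  · exact tfae ((h α hα).2 hα1 γ)

end Pool.Agent.Results.MP_c03ca8_nt.AlmostAllModuli
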