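import Pool.Agent.H73.KT.Fin
import Pool.Agent.H73.KT.F5a
import Pool.Agent.H73.KT.F5b
import Pool.Agent.H73.KT.F5c
import Pool.Agent.H73.KZ.Sys2
import Pool.Agent.H73.KP.Psn

/-!
# Quadruplets between consecutive fifth powers: undecided by the zeros of the zeta function and all constellation laws

A system of generalised primes (Beurling primes) is a sequence `1 < q 0 < q 1 < ...` of real numbers; its generalised
integers are the products `gint q n = ∏ q (k - 1)` over the prime factors of `n` (with multiplicity, the factor being the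
`k`-th prime number), one for every `n ≥ 1`, counted with multiplicity; for `q = 2, 3, 5, ...` one has `gint q n = n`.

Let `c D` be constants for the patterns `D` (finite sets of natural numbers with `0 ∈ D`, `|D| ≥ 2`), for instance the constants of
Hardy and Littlewood, with `c {0, 2, 6, 8} > 0`, and let `γ` be any sequence of ordinates (`O((T + 1) ^ ε)` terms in every window
`[T, T + 1]`; if the Riemann hypothesis holds, for instance the ordinates of the zeros of the Riemann zeta function). There are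
generalised primes with the analogues of the Riemann hypothesis and of the Lindelöf hypothesis, with the zeros `1 / 2 ± i γ k` of
the zeta function in `Re s > 1 / 3`, and with the explicit formula with the error `O(x ^ ε)`, such that the number of the
`D`-tuples up to `x` is `c D ∫_2^x du / (log u) ^ |D| + O(x ^ (1 / 2 + ε))` for every `D`; for them every interval `(n ^ 5, (n + 1) ^ 5)`,
`n` large, contains a quadruplet `q, q + 2, q + 6, q + 8`. And there are such generalised primes with the same zeros, the same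
explicit formula and the same laws for all `D` that contain no quadruplet, with the error `O(x ^ (4 / 5) / (log x) ^ |D|)` for the
other `D`, for which infinitely many intervals `(n ^ 5, (n + 1) ^ 5)` contain no quadruplet. An error
`o(x ^ (4 / 5) / (log x) ^ 4)` in the law of the quadruplets would exclude this.

Proof. The density `(main term - ∑ 2 cos (γ k log u) / √u) / log u`, where the zero `γ k` enters at `start γ k`, is positive,
and the integral of `u ^ (-s)` against it continues with the prescribed logarithmic singularities (`Pool.Agent.H49.BZ`, helper49). Cut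
`(1, ∞)` into blocks of slowly growing masses `a b + 1` with respect to this density; the block gets `a b + 1` points: a random
pattern `D ⊆ [0, a b]` (or none) placed at a random position and wrapped around, and further points at large distances. Each
point is distributed with the density, whatever the pattern; the probabilities of the patterns solve a triangular system.
The method of conditional expectations for countably many tests (the exponential moments of the twisted sums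
`∑_{q ≤ x} q ^ (-i m)` and of the numbers of all patterns), outside null sets that would create integer distances between
neighbouring blocks, gives the sequence (`Pool.Agent.H73.KZ`, with helper87, helper93, helper82). In the second part the
probabilities of the patterns that contain a quadruplet are `0` near the intervals `((2 ^ j) ^ 5, (2 ^ j + 1) ^ 5)`.
-/

set_option autoImplicit false

open Filter Topology MeasureTheory Complex

namespace Pool.Agent.Results.MP_c03ca8_nt.FifthPowersUndecided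

open Pool.Agent.H49.BP (gint)

/-- The number of generalised primes up to `x`. -/
noncomputable def primeCount (q : ℕ → ℝ) (x : ℝ) : ℕ := {j : ℕ | q j ≤ x}.ncard

/-- The number of generalised integers up to `x`, with multiplicity. -/
noncomputable def intCount (q : ℕ → ℝ) (x : ℝ) : ℕ := {n : ℕ | 1 ≤ n ∧ gint q n ≤ x}.ncard

/-- The number of the generalised primes `p ≤ x` such that `p + d` is a generalised prime for every `d ∈ D`. -/
noncomputable def tupleCount (q : ℕ → ℝ) (D : Finset ℕ) (x : ℝ) : ℕ :=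
  {n : ℕ | q n ≤ x ∧ ∀ d ∈ D, ∃ k, q k = q n + d}.ncard

/-- Every window `[T, T + 1]`, `T ≥ 0`, contains at most `C (T + 1) ^ ε` terms of the sequence, for every `ε > 0`, with a
constant `C` which depends on `ε`. -/
def Windows (γ : ℕ → ℝ) : Prop :=
  ∀ ε : ℝ, 0 < ε → ∃ C : ℝ, ∀ T : ℝ, 0 ≤ T → ∀ S : Finset ℕ,
    (∀ k ∈ S, T ≤ γ k ∧ γ k ≤ T + 1) → (S.card : ℝ) ≤ C * (T + 1) ^ ε

/-- The generalised primes `q` have the zeta function `Z s / (s - 1)` and satisfy the analogues of the Riemann hypothesis and of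
the Lindelöf hypothesis: they increase strictly from `q 0 > 1`; their number up to `x` is `∫_2^x du / log u + O(x ^ (1 / 2 + ε))`
and the number of the generalised integers up to `x` is `ρ x + O(x ^ (1 / 2 + ε))` for every `ε > 0`, with a `ρ > 0`; the
function `Z` is holomorphic in `Re s > 1 / 3` and `∑ (gint q n) ^ (-s) = Z s / (s - 1)` for `Re s > 1`; in `Re s > 1 / 2` one has
`Z s = s * exp (G s)` with a holomorphic function `G` that is at most `C √(log (|Im s| + 3))` for `Re s ≥ σ`, for every `σ > 1 / 2`. -/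
def RHSystem (q : ℕ → ℝ) (Z : ℂ → ℂ) : Prop :=
  StrictMono q ∧ 1 < q 0 ∧
    (∀ ε : ℝ, 0 < ε → ∃ C : ℝ, ∀ x : ℝ, 2 ≤ x →
      |(primeCount q x : ℝ) - ∫ u in (2 : ℝ)..x, (Real.log u)⁻¹| ≤ C * x ^ (1 / 2 + ε)) ∧
    (∃ ρ : ℝ, 0 < ρ ∧ ∀ ε : ℝ, 0 < ε → ∃ C : ℝ, ∀ x : ℝ, 1 ≤ x →
      |(intCount q x : ℝ) - ρ * x| ≤ C * x ^ (1 / 2 + ε)) ∧
    (∀ s : ℂ, 1 / 3 < s.re → AnalyticAt ℂ Z s) ∧
    (∀ s : ℂ, 1 < s.re → ∑' n : ℕ, ((gint q (n + 1) : ℝ) : ℂ) ^ (-s) = Z s / (s - 1)) ∧
    ∃ G : ℂ → ℂ, DifferentiableOn ℂ G {s | 1 / 2 < s.re} ∧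
      (∀ s : ℂ, 1 / 2 < s.re → Z s = s * Complex.exp (G s)) ∧
      ∀ σ : ℝ, 1 / 2 < σ → ∃ C : ℝ, ∀ s : ℂ, σ ≤ s.re → ‖G s‖ ≤ C * √(Real.log (|s.im| + 3))

/-- The point from which on the zero of height `γ k` is felt: `exp (π N / (γ k))` with the least natural number `N` such that
it is at least `(8 k + 9) ^ 2 * (1 + γ k)`. -/
noncomputable def start (γ : ℕ → ℝ) (k : ℕ) : ℝ :=
  Real.exp (Real.pi * ⌈γ k * (2 * Real.log (8 * k + 9) + Real.log (1 + γ k)) / Real.pi⌉₊ / γ k)

/-- The right side of the explicit formula: the integral from `1` to `x` of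
`(1 - 1 / u - (u ^ (-1 / 2) - 1 / u) / 2 - ∑ 2 cos (γ k log u) / √u) / log u`, the sum over the `k` with `start γ k ≤ u`. -/
noncomputable def explicit (γ : ℕ → ℝ) (x : ℝ) : ℝ :=
  ∫ u in (1 : ℝ)..x, (((1 - u⁻¹) - 1 / 2 * ((√u)⁻¹ - u⁻¹)) / Real.log u -
    ∑' k, if start γ k ≤ u then 2 * Real.cos (γ k * Real.log u) / (√u * Real.log u) else 0)

/-- The zeros of `Z` in the half-plane `Re s > 1 / 3` are the points `1 / 2 ± i γ k`, and the order of such a zero is the number
of the `k` with this ordinate. -/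
def HasZeros (Z : ℂ → ℂ) (γ : ℕ → ℝ) : Prop :=
  ∀ s : ℂ, 1 / 3 < s.re → analyticOrderAt Z s = {k | s = 1 / 2 + γ k * I ∨ s = 1 / 2 - γ k * I}.encard

/-- The number of generalised primes in `(x, x + y]`. -/
noncomputable def windowCount (q : ℕ → ℝ) (x y : ℝ) : ℕ := {n : ℕ | x < q n ∧ q n ≤ x + y}.ncard

/-- The number of the generalised primes in `(x, x + l log x]` has the Poisson distribution with mean `l`: the measure of the
set of the `x ∈ [2, X]` with exactly `k` primes in `(x, x + l log x]`, divided by `X`, tends to `exp (-l) l ^ k / k!`. -/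
def PoissonLaw (q : ℕ → ℝ) : Prop := ∀ l : ℝ, 0 < l → ∀ k : ℕ,
  Tendsto (fun X : ℝ => volume.real {x : ℝ | 2 ≤ x ∧ x ≤ X ∧ windowCount q x (l * Real.log x) = k} / X) atTop
    (𝓝 (Real.exp (-l) * l ^ k / (k.factorial : ℝ)))

/-- A quadruplet `q k, q k + 2, q k + 6, q k + 8` of generalised primes lies between `n ^ 5` and `(n + 1) ^ 5`. -/
def QuadrupletBetween (q : ℕ → ℝ) (n : ℕ) : Prop :=
  ∃ k : ℕ, (n : ℝ) ^ 5 < q k ∧ q k + 8 < ((n : ℝ) + 1) ^ 5 ∧ ∀ d ∈ ({0, 2, 6, 8} : Finset ℕ), ∃ i, q i = q k + d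

/-- The pattern `D` contains a translate of `{0, 2, 6, 8}`. -/
def ContainsQuadruplet (D : Finset ℕ) : Prop := ∃ t : ℕ, ∀ d ∈ ({0, 2, 6, 8} : Finset ℕ), t + d ∈ D

theorem bad_iff {D : Finset ℕ} : Pool.Agent.H73.KT.mult {0, 2, 6, 8} D ≠ 0 ↔ ContainsQuadruplet D := by
  rw [Pool.Agent.H73.KT.mult_ne_iff]
  constructor
  · rintro ⟨t, _, h⟩
    exact ⟨t, h⟩
  · rintro ⟨t, h⟩
    exact ⟨t, by simpa using h 0 (by decide), h⟩

/-- Let `0 < γ 0 ≤ γ 1 ≤ ...` be any sequence with at most `O((T + 1) ^ ε)` terms in every window `[T, T + 1]`. Let `c D ≥ 0` (`c D' = 0`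
if `D'` contains a translate of a `D` with `c D = 0`) and `c {0, 2, 6, 8} > 0`; for instance the constants of Hardy
and Littlewood. (1) There are generalised primes with the analogues of the Riemann hypothesis and of the Lindelöf hypothesis,
with the zeros `1 / 2 ± i γ k` of the zeta function in `Re s > 1 / 3` and with the explicit formula with the error `O(x ^ ε)`, such
that the number of the `D`-tuples up to `x` is `c D ∫_2^x du / (log u) ^ |D| + O(x ^ (1 / 2 + ε))` for all `D`, with the Poisson law for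
the numbers of the primes in `(x, x + l log x]`, and such that for all large `n` a quadruplet lies between `n ^ 5` and
`(n + 1) ^ 5`. (2) There are generalised primes with the analogues of the Riemann hypothesis
and of the Lindelöf hypothesis, with the same zeros and the same explicit formula, such that the number of the `D`-tuples up to
`x` is `c D ∫_2^x du / (log u) ^ |D| + O(x ^ (1 / 2 + ε))` for all `D` that contain no quadruplet and
`c D ∫_2^x du / (log u) ^ |D| + O(x ^ (4 / 5) / (log x) ^ |D|)` for all `D`, with the Poisson law, and such that for infinitely many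
`n` no quadruplet lies between `n ^ 5` and `(n + 1) ^ 5`. -/
theorem result (γ : ℕ → ℝ) (hpos : ∀ k, 0 < γ k) (hmono : Monotone γ) (hwin : Windows γ)
    (c : Finset ℕ → ℝ) (hc : ∀ D, 0 ≤ c D)
    (hc0 : ∀ D D' : Finset ℕ, 0 ∈ D → 2 ≤ D.card → 0 ∈ D' → (∃ t, ∀ d ∈ D, t + d ∈ D') → c D = 0 → c D' = 0)
    (hQ : 0 < c {0, 2, 6, 8}) :
    (∃ (q : ℕ → ℝ) (Z : ℂ → ℂ), RHSystem q Z ∧ HasZeros Z γ ∧
      (∀ ε : ℝ, 0 < ε → ∃ C : ℝ, ∀ x : ℝ, 1 ≤ x → |(primeCount q x : ℝ) - explicit γ x| ≤ C * x ^ ε) ∧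
      (∀ D : Finset ℕ, 0 ∈ D → 2 ≤ D.card → ∀ ε : ℝ, 0 < ε → ∃ C : ℝ, ∀ x : ℝ, 2 ≤ x →
        |(tupleCount q D x : ℝ) - c D * ∫ u in (2 : ℝ)..x, 1 / (Real.log u) ^ D.card| ≤ C * x ^ (1 / 2 + ε)) ∧
      PoissonLaw q ∧ ∀ᶠ n in atTop, QuadrupletBetween q n) ∧
    ∃ (q : ℕ → ℝ) (Z : ℂ → ℂ), RHSystem q Z ∧ HasZeros Z γ ∧
      (∀ ε : ℝ, 0 < ε → ∃ C : ℝ, ∀ x : ℝ, 1 ≤ x → |(primeCount q x : ℝ) - explicit γ x| ≤ C * x ^ ε) ∧
      (∀ D : Finset ℕ, 0 ∈ D → 2 ≤ D.card → ¬ ContainsQuadruplet D → ∀ ε : ℝ, 0 < ε → ∃ C : ℝ, ∀ x : ℝ, 2 ≤ x →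
        |(tupleCount q D x : ℝ) - c D * ∫ u in (2 : ℝ)..x, 1 / (Real.log u) ^ D.card| ≤ C * x ^ (1 / 2 + ε)) ∧
      (∀ D : Finset ℕ, 0 ∈ D → 2 ≤ D.card → ∃ C : ℝ, ∀ x : ℝ, 2 ≤ x →
        |(tupleCount q D x : ℝ) - c D * ∫ u in (2 : ℝ)..x, 1 / (Real.log u) ^ D.card| ≤
          C * (x ^ (4 / 5 : ℝ) / (Real.log x) ^ D.card)) ∧
      PoissonLaw q ∧ ∃ᶠ n in atTop, ¬ QuadrupletBetween q n := by
  let _ : Pool.Agent.H49.BZ.Dens := Pool.Agent.H49.BZ.dens γ hpos
  have _ : Pool.Agent.H73.KZ.DV := Pool.Agent.H49.BZ.dens_DV hpos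
  have hc0' : ∀ D D' : Finset ℕ, 0 ∈ D → 2 ≤ D.card → 0 ∈ D' → Pool.Agent.H73.KT.mult D D' ≠ 0 → c D = 0 → c D' = 0 := by
    intro D D' hD hD2 hD' hm
    obtain ⟨t, _, h⟩ := Pool.Agent.H73.KT.mult_ne hm
    exact hc0 D D' hD hD2 hD' ⟨t, h⟩
  have hq0 : (0 : ℕ) ∈ ({0, 2, 6, 8} : Finset ℕ) := by decide
  have hq2 : 2 ≤ ({0, 2, 6, 8} : Finset ℕ).card := by decide
  constructor
  · have hlaws := Pool.Agent.H73.KT.nb_laws hc hc0' (Bad := fun _ => False) (fun _ _ _ h => h) (X := ∅) MeasurableSet.empty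
    obtain ⟨a, S, q, Dd, v, hst, hD, hcount, hlaw, hloc, hv, hY, hbad⟩ :=
      Pool.Agent.H73.KP.realise3 hlaws (fun _ => 0)
    have hq := hst.2.2.2.1
    have hpo : PoissonLaw q := Pool.Agent.H73.KP.poisson_blocks
      (fun ε hε => Pool.Agent.H73.KP.nd_lim1 hpos hmono hwin hε) hst.1 hst.2.2.1 hq hv hY hbad
    obtain ⟨⟨Z, hZ1, hZ2⟩, hex⟩ :=
      Pool.Agent.H73.KZ.base_system hpos hmono hwin hq.1 hq.2.1 hq.2.2.1 hD hcount
    have hlaw' : ∀ D : Finset ℕ, 0 ∈ D → 2 ≤ D.card → ∀ ε : ℝ, 0 < ε → ∃ C : ℝ, ∀ x : ℝ, 2 ≤ x →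
        |(tupleCount q D x : ℝ) - c D * ∫ u in (2 : ℝ)..x, 1 / (Real.log u) ^ D.card| ≤ C * x ^ (1 / 2 + ε) := by
      intro D hD hD2 ε hε
      obtain ⟨C, hC⟩ := hlaw D hD hD2 ε hε
      refine ⟨C, fun x hx => ?_⟩
      rw [← Pool.Agent.H73.KT.nb_int (Bad := fun _ => False) (X := ∅) hD2 (fun h => h) hx]
      exact hC x hx
    refine ⟨q, Z, hZ1, hZ2, hex, hlaw', hpo, ?_⟩
    obtain ⟨C, hC⟩ := hlaw' {0, 2, 6, 8} hq0 hq2 (1 / 10) (by norm_num)
    have h5 := Pool.Agent.H73.KT.fifth_exists (q := q) (E := {0, 2, 6, 8}) (c0 := c {0, 2, 6, 8}) (C := C) hQ hq.1 hq.2.1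
      (fun x hx => by
        have := hC x hx
        rw [show (1 / 2 + 1 / 10 : ℝ) = 3 / 5 by norm_num] at this
        exact this)
    filter_upwards [h5] with n hn
    obtain ⟨k, h1, h2, h3⟩ := hn
    exact ⟨k, h1, by linarith, h3⟩
  · have hlaws := Pool.Agent.H73.KT.nb_laws hc hc0' (Bad := fun D => Pool.Agent.H73.KT.mult {0, 2, 6, 8} D ≠ 0)
      (fun D D' h1 h2 => Pool.Agent.H73.KT.mult_trans h2 h1) (X := Pool.Agent.H73.KT.EE) Pool.Agent.H73.KT.EE_meas
    obtain ⟨a, S, q, Dd, v, hst, hD, hcount, hlaw, hloc, hv, hY, hbad⟩ :=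
      Pool.Agent.H73.KP.realise3 hlaws (fun _ => 0)
    have hq := hst.2.2.2.1
    have hpo : PoissonLaw q := Pool.Agent.H73.KP.poisson_blocks
      (fun ε hε => Pool.Agent.H73.KP.nd_lim1 hpos hmono hwin hε) hst.1 hst.2.2.1 hq hv hY hbad
    obtain ⟨⟨Z, hZ1, hZ2⟩, hex⟩ :=
      Pool.Agent.H73.KZ.base_system hpos hmono hwin hq.1 hq.2.1 hq.2.2.1 hD hcount
    refine ⟨q, Z, hZ1, hZ2, hex, fun D hD hD2 hDt ε hε => ?_, fun D hD hD2 => ?_, hpo, ?_⟩
    · obtain ⟨C, hC⟩ := hlaw D hD hD2 ε hε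
      refine ⟨C, fun x hx => ?_⟩
      rw [← Pool.Agent.H73.KT.nb_int (Bad := fun D => Pool.Agent.H73.KT.mult {0, 2, 6, 8} D ≠ 0)
        (X := Pool.Agent.H73.KT.EE) hD2 (fun h => hDt (bad_iff.1 h)) hx]
      exact hC x hx
    · exact Pool.Agent.H73.KT.law_fifth hc hD2 (hlaw D hD hD2)
    · obtain ⟨K, hK⟩ := hloc {0, 2, 6, 8} hq0 hq2
      have htend : Tendsto (fun j : ℕ => 2 ^ j) atTop atTop := tendsto_pow_atTop_atTop_of_one_lt (by norm_num)
      refine htend.frequently (Eventually.frequently ?_)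
      filter_upwards [Pool.Agent.H73.KT.EE_near, htend.eventually (eventually_ge_atTop ⌈q K⌉₊),
        htend.eventually (eventually_ge_atTop 1)] with j hj hbig hone
      rintro ⟨k, h1, h2, h3⟩
      have hbig' : q K ≤ ((2 ^ j : ℕ) : ℝ) := (Nat.le_ceil _).trans (by exact_mod_cast hbig)
      have hone' : (1 : ℝ) ≤ ((2 ^ j : ℕ) : ℝ) := by exact_mod_cast hone
      have hpow : ((2 ^ j : ℕ) : ℝ) ≤ ((2 ^ j : ℕ) : ℝ) ^ 5 := le_self_pow₀ hone' (by norm_num)
      have hk : K ≤ k := by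
        by_contra hlt
        push Not at hlt
        have := hq.1 hlt
        linarith
      obtain ⟨u, hu1, hu2⟩ := hK k hk h3
      push_cast at h1 h2
      have hu3 := hj (q k) u h1 (by linarith) hu1
      apply hu2
      unfold Pool.Agent.H73.KT.nb
      rw [if_pos]
      exact ⟨bad_iff.2 ⟨0, fun d hd => by simpa using hd⟩, hu3⟩

end Pool.Agent.Results.MP_c03ca8_nt.FifthPowersUndecided
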