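import Pool.Agent.H41.GM.Asm
import Pool.Agent.H41.GM.Det
import Pool.Agent.H41.GM.Ord
import Pool.Agent.H59.GM.Sum
import Pool.Agent.H22.GM.Ren
import Pool.Agent.H56.GM.Upp
import Pool.Agent.H76.GM.Mom
import Pool.Agent.H11.GM.Low

/-!
# Golubew's question and the moments of the gaps between quadruplets

Random sequences `q 0 < q 1 < ...` (the first elements of the quadruplets) with gaps of arbitrary tail.
-/

set_option autoImplicit false

namespace Pool.Agent.Results.MP_c03ca8_nt.GapMoments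

open MeasureTheory Filter Topology ProbabilityTheory
open Pool.Agent.H41.GM

/-- (1) The criterion for every random sequence with gaps of tail `T`. (2) Renewal models. -/
theorem result :
    (∀ (Ω : Type) [mΩ : MeasurableSpace Ω] (P : Measure Ω) [IsProbabilityMeasure P]
      (ℱ : Filtration ℕ mΩ) (q : ℕ → Ω → ℕ) (T : ℝ → ℝ), Antitone T → (∀ t, 0 ≤ T t) →
      Gaps P ℱ q T →
      (Summable (fun j : ℕ => T (aa j)) → ∀ᵐ ω ∂P, Golubew fun j => q j ω) ∧
      (¬ Summable (fun j : ℕ => T (aa j)) → ∀ᵐ ω ∂P, Empties fun j => q j ω)) ∧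
    (∀ (Ω : Type) [mΩ : MeasurableSpace Ω] (P : Measure Ω) [IsProbabilityMeasure P]
      (X : ℕ → Ω → ℝ) (q : ℕ → Ω → ℕ), (∀ i, Measurable (X i)) → (∀ i ω, 0 ≤ X i ω) →
      iIndepFun X P → (∀ i, IdentDistrib (X i) (X 0) P P) → Integrable (X 0) P →
      0 < ∫ ω, X 0 ω ∂P → (∃ m₀ : ℕ, ∀ ω, q 0 ω = m₀) →
      (∀ j ω, q (j + 1) ω = q j ω + 1 + ⌊X j ω * sc (q j ω)⌋₊) →
      (∃ ℱ : Filtration ℕ mΩ, Gaps P ℱ q (fun t => P.real {ω | t ≤ X 0 ω})) ∧
      (Integrable (fun ω => X 0 ω ^ (5 / 4 : ℝ) * Real.log (2 + X 0 ω)) P →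
        ∀ᵐ ω ∂P, Golubew fun j => q j ω) ∧
      (¬ Integrable (fun ω => X 0 ω ^ (5 / 4 : ℝ) * Real.log (2 + X 0 ω)) P →
        ∀ᵐ ω ∂P, Empties fun j => q j ω)) := by
  have hsum : S_SUM := Pool.Agent.H59.GM.sum
  have hupp : S_UPP := Pool.Agent.H56.GM.upp hsum
  have hlow : S_LOW := Pool.Agent.H11.GM.low hsum
  have hren : S_REN := Pool.Agent.H22.GM.ren ord
  exact ⟨fun Ω _ P _ ℱ q T => gaps_law det hupp hlow Ω P ℱ q T,
    fun Ω _ P _ X q => renewal_law det hupp hlow Pool.Agent.H76.GM.mom hren Ω P X q⟩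

end Pool.Agent.Results.MP_c03ca8_nt.GapMoments
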